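import Mathlib

namespace Pool.Agent.Lib.MP_ef197a_an

variable {E : Type*} [NormedAddCommGroup E] [InnerProductSpace ℝ E]

/-- `P` is the nearest-point projection onto `C`. -/
def IsProj (C : Set E) (P : E → E) : Prop :=
  ∀ x, P x ∈ C ∧ ∀ y ∈ C, ‖x - P x‖ ≤ ‖x - y‖

/-- The reflector `2 P - Id`. -/
def reflector (P : E → E) (x : E) : E := (2 : ℝ) • P x - x

/-- The Douglas-Rachford operator `(Id + R_B R_A) / 2`. -/
noncomputable def drOp (PA PB : E → E) (x : E) : E :=
  (1 / 2 : ℝ) • (x + reflector PB (reflector PA x))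

/-- `v` is an element of least norm in the closure of the range of `Id - T`. -/
def IsMinDisplacement (T : E → E) (v : E) : Prop :=
  v ∈ closure (Set.range fun x => x - T x) ∧
    ∀ w ∈ closure (Set.range fun x => x - T x), ‖v‖ ≤ ‖w‖

end Pool.Agent.Lib.MP_ef197a_an
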