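import Pool.Agent.Lib.MP_ef197a_an.Defs

namespace Pool.Agent.Lib.MP_ef197a_an

open Metric Set Filter Topology
open scoped RealInnerProductSpace

variable {E : Type*} [NormedAddCommGroup E] [InnerProductSpace ℝ E]

lemma IsProj.vi {C : Set E} {P : E → E} (h : IsProj C P) (hC : Convex ℝ C) (x y : E) (hy : y ∈ C) :
    ⟪x - P x, y - P x⟫ ≤ 0 := by
  refine (norm_eq_iInf_iff_real_inner_le_zero hC (h x).1).1 ?_ y hy
  have : Nonempty C := ⟨⟨_, (h x).1⟩⟩
  refine le_antisymm (le_ciInf fun w => (h x).2 w w.2) ?_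
  exact ciInf_le ⟨0, by rintro _ ⟨w, rfl⟩; exact norm_nonneg _⟩ (⟨P x, (h x).1⟩ : C)

lemma IsProj.unique {C : Set E} {P : E → E} (h : IsProj C P) (hC : Convex ℝ C) (x q : E)
    (hq : q ∈ C) (hle : ‖x - q‖ ≤ ‖x - P x‖) : P x = q := by
  have h1 := h.vi hC x q hq
  have h2 : ‖x - q‖ ^ 2 = ‖x - P x‖ ^ 2 - 2 * ⟪x - P x, q - P x⟫ + ‖q - P x‖ ^ 2 := by
    rw [← norm_sub_sq_real]; congr 2; abel
  have h3 : ‖x - q‖ ^ 2 ≤ ‖x - P x‖ ^ 2 := by gcongr
  have h4 : ‖q - P x‖ ^ 2 ≤ 0 := by linarith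
  have h5 : ‖q - P x‖ = 0 := by nlinarith [norm_nonneg (q - P x)]
  exact (sub_eq_zero.1 (norm_eq_zero.1 h5)).symm

omit [InnerProductSpace ℝ E] in
lemma IsProj.self {C : Set E} {P : E → E} (h : IsProj C P) {x : E} (hx : x ∈ C) : P x = x := by
  have := (h x).2 x hx
  rw [sub_self, norm_zero] at this
  exact (sub_eq_zero.1 (norm_le_zero_iff.1 this)).symm

lemma IsProj.refl_lip {C : Set E} {P : E → E} (h : IsProj C P) (hC : Convex ℝ C) (x y : E) :
    ‖reflector P x - reflector P y‖ ≤ ‖x - y‖ := by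
  have h1 := h.vi hC x (P y) (h y).1
  have h2 := h.vi hC y (P x) (h x).1
  have e1 : reflector P x - reflector P y = (P x - P y) - ((x - P x) - (y - P y)) := by
    simp only [reflector, two_smul]; abel
  have e2 : x - y = (P x - P y) + ((x - P x) - (y - P y)) := by abel
  have h3 : 0 ≤ ⟪P x - P y, (x - P x) - (y - P y)⟫ := by
    have e3 : P y - P x = -(P x - P y) := by abel
    rw [e3, inner_neg_right] at h1
    rw [inner_sub_right, real_inner_comm, real_inner_comm (y - P y)]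
    linarith
  refine (pow_le_pow_iff_left₀ (norm_nonneg _) (norm_nonneg _) two_ne_zero).1 ?_
  rw [e1, e2, norm_sub_sq_real, norm_add_sq_real]
  linarith

lemma IsProj.ball_far {a : E} {α : ℝ} {P : E → E} (h : IsProj (closedBall a α) P) (hα : 0 ≤ α)
    (e : E) (he : ‖e‖ = 1) (s : ℝ) (hs : α ≤ s) : P (a + s • e) = a + α • e := by
  refine h.unique (convex_closedBall _ _) _ _ ?_ ?_
  · simp [norm_smul, he, abs_of_nonneg hα]
  · have e1 : a + s • e - (a + α • e) = (s - α) • e := by rw [sub_smul]; abel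
    have h1 : ‖P (a + s • e) - a‖ ≤ α := by simpa [dist_eq_norm] using (h (a + s • e)).1
    have h2 : ‖s • e‖ ≤ ‖a + s • e - P (a + s • e)‖ + ‖P (a + s • e) - a‖ := by
      refine le_trans (le_of_eq ?_) (norm_add_le _ _)
      congr 1; abel
    rw [norm_smul, he, Real.norm_eq_abs, abs_of_nonneg (hα.trans hs)] at h2
    rw [e1, norm_smul, he, Real.norm_eq_abs, abs_of_nonneg (sub_nonneg.2 hs)]
    linarith

lemma IsProj.ball_form {a : E} {α : ℝ} {P : E → E} (h : IsProj (closedBall a α) P) (hα : 0 ≤ α)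
    (x : E) : ∃ θ ∈ Icc (0 : ℝ) 1, P x = a + θ • (x - a) := by
  by_cases hx : x ∈ closedBall a α
  · exact ⟨1, ⟨zero_le_one, le_rfl⟩, by rw [h.self hx]; simp⟩
  · have hr : α < ‖x - a‖ := by simpa [dist_eq_norm] using hx
    have hr0 : 0 < ‖x - a‖ := hα.trans_lt hr
    have h1 := h.ball_far hα (‖x - a‖⁻¹ • (x - a)) (norm_smul_inv_norm (by
      intro h0; simp [h0] at hr0)) ‖x - a‖ hr.le
    rw [smul_smul, mul_inv_cancel₀ hr0.ne', one_smul, add_sub_cancel, smul_smul] at h1
    refine ⟨α * ‖x - a‖⁻¹, ⟨by positivity, ?_⟩, h1⟩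
    rw [← div_eq_mul_inv, div_le_one hr0]; exact hr.le

lemma drOp_eq (PA PB : E → E) (x : E) : drOp PA PB x = x - PA x + PB (reflector PA x) := by
  simp only [drOp]
  rw [show reflector PB (reflector PA x) = (2 : ℝ) • PB (reflector PA x) - ((2 : ℝ) • PA x - x)
    from rfl]
  module

section
variable {A B : Set E} {PA PB : E → E} (hA : IsProj A PA) (hB : IsProj B PB)
  (cA : Convex ℝ A) (cB : Convex ℝ B)
include hA hB cA cB

lemma dr_firm (x y : E) :
    ‖drOp PA PB x - drOp PA PB y‖ ^ 2 + ‖(x - drOp PA PB x) - (y - drOp PA PB y)‖ ^ 2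
      ≤ ‖x - y‖ ^ 2 := by
  have h1 := (hB.refl_lip cB (reflector PA x) (reflector PA y)).trans (hA.refl_lip cA x y)
  set N := reflector PB (reflector PA x) - reflector PB (reflector PA y) with hN
  have e1 : drOp PA PB x - drOp PA PB y = (1 / 2 : ℝ) • ((x - y) + N) := by
    simp only [drOp, hN]; module
  have e2 : (x - drOp PA PB x) - (y - drOp PA PB y) = (1 / 2 : ℝ) • ((x - y) - N) := by
    simp only [drOp, hN]; module
  have h2 : ‖N‖ ^ 2 ≤ ‖x - y‖ ^ 2 := by gcongr
  rw [e1, e2, norm_smul, norm_smul, mul_pow, mul_pow, norm_add_sq_real, norm_sub_sq_real (x - y)]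
  norm_num
  linarith

lemma dr_lip (x y : E) : ‖drOp PA PB x - drOp PA PB y‖ ≤ ‖x - y‖ := by
  refine (pow_le_pow_iff_left₀ (norm_nonneg _) (norm_nonneg _) two_ne_zero).1 ?_
  have := dr_firm hA hB cA cB x y
  nlinarith [sq_nonneg ‖(x - drOp PA PB x) - (y - drOp PA PB y)‖]

lemma dr_iter_lip (x y : E) (n : ℕ) :
    ‖(drOp PA PB)^[n] x - (drOp PA PB)^[n] y‖ ≤ ‖x - y‖ := by
  induction n with
  | zero => simp
  | succ n ih =>
    rw [Function.iterate_succ_apply', Function.iterate_succ_apply']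
    exact (dr_lip hA hB cA cB _ _).trans ih

lemma dr_conv_of_compact (x z : E) (hz : drOp PA PB z = z) (K : Set E) (hK : IsCompact K)
    (hx : ∀ n, (drOp PA PB)^[n] x ∈ K) :
    ∃ l, Tendsto (fun n => (drOp PA PB)^[n] x) atTop (𝓝 l) := by
  set T := drOp PA PB with hT
  have anti : ∀ y, T y = y → Antitone fun n => ‖T^[n] x - y‖ := fun y hy =>
    antitone_nat_of_succ_le fun n => by
      rw [Function.iterate_succ_apply']
      have := dr_lip hA hB cA cB (T^[n] x) y
      rwa [← hT, hy] at this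
  have lim1 : ∃ r, Tendsto (fun n => ‖T^[n] x - z‖) atTop (𝓝 r) :=
    ⟨_, tendsto_atTop_ciInf (anti z hz) ⟨0, by rintro _ ⟨n, rfl⟩; exact norm_nonneg _⟩⟩
  obtain ⟨r, hr⟩ := lim1
  have reg : Tendsto (fun n => ‖T^[n] x - T (T^[n] x)‖ ^ 2) atTop (𝓝 0) := by
    have h1 : Tendsto (fun n => ‖T^[n] x - z‖ ^ 2 - ‖T^[n + 1] x - z‖ ^ 2) atTop
        (𝓝 (r ^ 2 - r ^ 2)) :=
      (hr.pow 2).sub ((hr.comp (tendsto_add_atTop_nat 1)).pow 2)
    rw [sub_self] at h1
    refine squeeze_zero (fun n => by positivity) (fun n => ?_) h1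
    have := dr_firm hA hB cA cB (T^[n] x) z
    rw [← hT, hz, sub_self, sub_zero] at this
    rw [Function.iterate_succ_apply']
    linarith
  obtain ⟨l, -, φ, hφ, hl⟩ := hK.tendsto_subseq hx
  have hTc : Continuous T :=
    (LipschitzWith.of_dist_le_mul (K := 1) fun u w => by
      simpa [dist_eq_norm] using dr_lip hA hB cA cB u w).continuous
  have hfix : T l = l := by
    have h1 : Tendsto (fun n => ‖T^[φ n] x - T (T^[φ n] x)‖ ^ 2) atTop (𝓝 (‖l - T l‖ ^ 2)) :=
      ((hl.sub ((hTc.tendsto l).comp hl)).norm).pow 2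
    have h2 := tendsto_nhds_unique h1 (reg.comp hφ.tendsto_atTop)
    have h3 : ‖l - T l‖ = 0 := by simpa using h2
    exact (sub_eq_zero.1 (norm_eq_zero.1 h3)).symm
  refine ⟨l, tendsto_iff_norm_sub_tendsto_zero.2 ?_⟩
  have h1 := tendsto_atTop_ciInf (anti l hfix) ⟨0, by rintro _ ⟨n, rfl⟩; exact norm_nonneg _⟩
  have h2 := tendsto_nhds_unique (h1.comp hφ.tendsto_atTop)
    (tendsto_iff_norm_sub_tendsto_zero.1 hl)
  rwa [h2] at h1

end

section
variable {a b : E} {α β : ℝ} {PA PB : E → E} (hα : 0 ≤ α) (hβ : 0 ≤ β)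
  (hA : IsProj (closedBall a α) PA) (hB : IsProj (closedBall b β) PB)
include hα hβ hA hB

lemma dr_step (x : E) : ∃ c ∈ Icc (0 : ℝ) 1, ∃ m : ℝ,
    drOp PA PB x = a + c • (x - a) + m • (b - a) := by
  obtain ⟨θ, hθ, e1⟩ := hA.ball_form hα x
  obtain ⟨φ, hφ, e2⟩ := hB.ball_form hβ (reflector PA x)
  refine ⟨(1 - θ) * (1 - φ) + θ * φ, ⟨?_, ?_⟩, 1 - φ, ?_⟩
  · have := sub_nonneg.2 hθ.2
    have := sub_nonneg.2 hφ.2
    have := hθ.1
    have := hφ.1
    positivity
  · nlinarith [hθ.1, hθ.2, hφ.1, hφ.2, mul_nonneg hθ.1 (sub_nonneg.2 hφ.2),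
      mul_nonneg hφ.1 (sub_nonneg.2 hθ.2)]
  · rw [drOp_eq, e2, reflector, e1]; module

lemma dr_orbit (x : E) : ∃ lam mu : ℕ → ℝ, Antitone lam ∧ (∀ n, lam n ∈ Icc (0 : ℝ) 1) ∧
    ∀ n, (drOp PA PB)^[n] x = a + lam n • (x - a) + mu n • (b - a) := by
  choose c hc m hm using dr_step hα hβ hA hB
  set T := drOp PA PB
  let lam : ℕ → ℝ := fun n => Nat.rec 1 (fun k r => c (T^[k] x) * r) n
  let mu : ℕ → ℝ := fun n => Nat.rec 0 (fun k r => c (T^[k] x) * r + m (T^[k] x)) n
  have l1 : ∀ n, lam (n + 1) = c (T^[n] x) * lam n := fun n => rfl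
  have m1 : ∀ n, mu (n + 1) = c (T^[n] x) * mu n + m (T^[n] x) := fun n => rfl
  have hl : ∀ n, lam n ∈ Icc (0 : ℝ) 1 := by
    intro n
    induction n with
    | zero => exact ⟨zero_le_one, le_rfl⟩
    | succ n ih =>
      rw [l1]
      exact ⟨mul_nonneg (hc _).1 ih.1, mul_le_one₀ (hc _).2 ih.1 ih.2⟩
  refine ⟨lam, mu, antitone_nat_of_succ_le fun n => ?_, hl, fun n => ?_⟩
  · rw [l1]; exact mul_le_of_le_one_left (hl n).1 (hc _).2
  · induction n with
    | zero => simp [lam, mu]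
    | succ n ih =>
      rw [Function.iterate_succ_apply', hm, l1, m1]
      generalize c (T^[n] x) = c0
      generalize m (T^[n] x) = m0
      rw [ih]; module

lemma conv_inter (z : E) (hza : z ∈ closedBall a α) (hzb : z ∈ closedBall b β) (v : E)
    (hv : IsMinDisplacement (drOp PA PB) v) (x : E) :
    ∃ l, Tendsto (fun n : ℕ => (drOp PA PB)^[n] x + (n : ℝ) • v) atTop (𝓝 l) := by
  have hz : drOp PA PB z = z := by
    have : reflector PA z = z := by rw [reflector, hA.self hza]; module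
    rw [drOp_eq, this, hA.self hza, hB.self hzb]; abel
  have hv0 : v = 0 := by
    have := hv.2 0 (subset_closure ⟨z, by simp [hz]⟩)
    simpa using this
  simp only [hv0, smul_zero, add_zero]
  obtain ⟨lam, mu, -, hl, ho⟩ := dr_orbit hα hβ hA hB x
  have hb : ∀ n, ‖(drOp PA PB)^[n] x - z‖ ≤ ‖x - z‖ := fun n => by
    have := dr_iter_lip hA hB (convex_closedBall _ _) (convex_closedBall _ _) x z n
    rwa [Function.iterate_fixed hz] at this
  set M := (‖x - z‖ + ‖z - a‖ + ‖x - a‖) / ‖b - a‖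
  refine dr_conv_of_compact hA hB (convex_closedBall _ _) (convex_closedBall _ _) x z hz
    ((fun p : ℝ × ℝ => a + p.1 • (x - a) + p.2 • (b - a)) '' (Icc 0 1 ×ˢ Icc (-M) M))
    ((isCompact_Icc.prod isCompact_Icc).image (by fun_prop)) fun n => ?_
  by_cases hab : b - a = 0
  · refine ⟨(lam n, 0), ⟨hl n, ?_⟩, ?_⟩
    · simp [M, hab]
    · simp [ho n, hab]
  · refine ⟨(lam n, mu n), ⟨hl n, ?_⟩, (ho n).symm⟩
    have hp : 0 < ‖b - a‖ := norm_pos_iff.2 hab
    rw [mem_Icc, ← abs_le, le_div_iff₀ hp]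
    have e : mu n • (b - a) = ((drOp PA PB)^[n] x - z) + (z - a) - lam n • (x - a) := by
      rw [ho n]; abel
    have h1 : ‖mu n • (b - a)‖ ≤ ‖x - z‖ + ‖z - a‖ + ‖x - a‖ := by
      rw [e]
      refine (norm_sub_le _ _).trans (add_le_add ((norm_add_le _ _).trans ?_) ?_)
      · linarith [hb n]
      · rw [norm_smul, Real.norm_eq_abs, abs_of_nonneg (hl n).1]
        exact mul_le_of_le_one_left (norm_nonneg _) (hl n).2
    rwa [norm_smul, Real.norm_eq_abs] at h1

lemma conv_disj (hd : α + β < ‖b - a‖) (v : E)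
    (hv : IsMinDisplacement (drOp PA PB) v) (x : E) :
    ∃ l, Tendsto (fun n : ℕ => (drOp PA PB)^[n] x + (n : ℝ) • v) atTop (𝓝 l) := by
  set T := drOp PA PB with hT
  set d := ‖b - a‖ with hdd
  have hd0 : 0 < d := by linarith
  set e : E := d⁻¹ • (b - a) with he
  have he1 : ‖e‖ = 1 := norm_smul_inv_norm (norm_pos_iff.1 hd0)
  have hbe : b = a + d • e := by
    rw [he, smul_smul, mul_inv_cancel₀ hd0.ne', one_smul]; abel
  have hee : ⟪e, e⟫ = 1 := by rw [real_inner_self_eq_norm_sq, he1]; norm_num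
  set g := d - α - β with hg
  have hg0 : 0 < g := by linarith
  have ray : ∀ s, α ≤ s → T (a + s • e) = a + (s + g) • e := by
    intro s hs
    have h1 := hA.ball_far hα e he1 s hs
    have h2 := hB.ball_far hβ (-e) (by rw [norm_neg, he1]) (d + s - 2 * α) (by linarith)
    have e1 : reflector PA (a + s • e) = b + (d + s - 2 * α) • (-e) := by
      rw [reflector, h1, hbe]; module
    rw [hT, drOp_eq, e1, h2, h1, hg]
    nth_rewrite 1 [hbe]
    module
  have step : ∀ y, ⟪y - T y, e⟫ ≤ -g := by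
    intro y
    have h1 : ‖PA y - a‖ ≤ α := by simpa [dist_eq_norm] using (hA y).1
    have h2 : ‖PB (reflector PA y) - b‖ ≤ β := by
      simpa [dist_eq_norm] using (hB (reflector PA y)).1
    have e1 : y - T y = (PA y - a) - (PB (reflector PA y) - b) - d • e := by
      rw [hT, drOp_eq]
      have : d • e = b - a := by rw [hbe]; abel
      rw [this]; abel
    have h3 := real_inner_le_norm (PA y - a) e
    have h4 := neg_le_of_abs_le (abs_real_inner_le_norm (PB (reflector PA y) - b) e)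
    rw [he1] at h3 h4
    rw [e1, inner_sub_left, inner_sub_left, real_inner_smul_left, hee]
    linarith
  have hv1 : v = -(g • e) := by
    have h1 : ⟪v, e⟫ ≤ -g := by
      have hc : IsClosed {w : E | ⟪w, e⟫ ≤ -g} := isClosed_le (by fun_prop) continuous_const
      exact closure_minimal (by rintro _ ⟨y, rfl⟩; exact step y) hc hv.1
    have h2 : ‖v‖ ≤ g := by
      have := hv.2 (-(g • e)) (subset_closure ⟨a + α • e, by simp only [ray α le_rfl]; module⟩)
      rwa [norm_neg, norm_smul, he1, Real.norm_eq_abs, abs_of_pos hg0, mul_one] at this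
    have h3 : ‖v + g • e‖ ^ 2 ≤ 0 := by
      rw [norm_add_sq_real, real_inner_smul_right, norm_smul, he1, Real.norm_eq_abs,
        abs_of_pos hg0]
      nlinarith [norm_nonneg v]
    have h4 : ‖v + g • e‖ = 0 := by nlinarith [norm_nonneg (v + g • e)]
    exact eq_neg_of_add_eq_zero_left (norm_eq_zero.1 h4)
  have rayn : ∀ n : ℕ, T^[n] (a + α • e) = a + (α + n * g) • e := by
    intro n
    induction n with
    | zero => simp
    | succ n ih =>
      rw [Function.iterate_succ_apply', ih, ray _ (by nlinarith [Nat.cast_nonneg (α := ℝ) n])]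
      push_cast; module
  set σ : ℕ → ℝ := fun n => ⟪T^[n] x + (n : ℝ) • v - a, e⟫ with hσ
  have mono : Monotone σ := monotone_nat_of_le_succ fun n => by
    have h1 := step (T^[n] x)
    have e1 : T^[n + 1] x + ((n + 1 : ℕ) : ℝ) • v - a =
        (T^[n] x + (n : ℝ) • v - a) - (T^[n] x - T (T^[n] x)) - g • e := by
      rw [Function.iterate_succ_apply', hv1]; push_cast; module
    simp only [hσ]
    rw [e1, inner_sub_left _ (g • e), inner_sub_left _ (T^[n] x - T (T^[n] x)),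
      real_inner_smul_left, hee]
    linarith
  have bdd : BddAbove (range σ) := by
    refine ⟨‖x - (a + α • e)‖ + α, ?_⟩
    rintro _ ⟨n, rfl⟩
    have h1 := dr_iter_lip hA hB (convex_closedBall _ _) (convex_closedBall _ _) x (a + α • e) n
    rw [← hT, rayn] at h1
    have e1 : T^[n] x + (n : ℝ) • v - a = (T^[n] x - (a + (α + n * g) • e)) + α • e := by
      rw [hv1]; module
    have h3 := real_inner_le_norm (T^[n] x - (a + (α + n * g) • e)) e
    rw [he1] at h3
    simp only [hσ]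
    rw [e1, inner_add_left, real_inner_smul_left, hee]
    linarith
  have hσl := tendsto_atTop_ciSup mono bdd
  obtain ⟨lam, mu, hanti, hl, ho⟩ := dr_orbit hα hβ hA hB x
  have hll := tendsto_atTop_ciInf hanti ⟨0, by rintro _ ⟨n, rfl⟩; exact (hl n).1⟩
  have form : ∀ n : ℕ, T^[n] x + (n : ℝ) • v =
      a + lam n • (x - a) + (σ n - lam n * ⟪x - a, e⟫) • e := by
    intro n
    have e1 : T^[n] x + (n : ℝ) • v - a = lam n • (x - a) + (mu n * d - n * g) • e := by
      have : b - a = d • e := by rw [hbe]; abel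
      rw [hT, ho n, hv1, this]; module
    have e2 : σ n - lam n * ⟪x - a, e⟫ = mu n * d - n * g := by
      simp only [hσ]
      rw [e1, inner_add_left, real_inner_smul_left, real_inner_smul_left, hee]; ring
    rw [e2, add_assoc, ← e1]; abel
  simp only [form]
  exact ⟨_, (tendsto_const_nhds.add (hll.smul_const _)).add
    ((hσl.sub (hll.mul_const _)).smul_const _)⟩

theorem main (v : E) (hv : IsMinDisplacement (drOp PA PB) v) (x : E) :
    ∃ l, Tendsto (fun n : ℕ => (drOp PA PB)^[n] x + (n : ℝ) • v) atTop (𝓝 l) := by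
  by_cases hd : α + β < ‖b - a‖
  · exact conv_disj hα hβ hA hB hd v hv x
  · have h : ¬ Disjoint (closedBall a α) (closedBall b β) := by
      rw [disjoint_closedBall_closedBall_iff hα hβ, dist_eq_norm, norm_sub_rev]; exact hd
    obtain ⟨z, hz1, hz2⟩ := not_disjoint_iff.1 h
    exact conv_inter hα hβ hA hB z hz1 hz2 v hv x

end

end Pool.Agent.Lib.MP_ef197a_an
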