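import Pool.Agent.Lib.MP_ef197a_an.Proof

open Set Metric Filter Topology
open scoped RealInnerProductSpace

namespace Pool.Agent.Lib.MP_ef197a_an.S77

variable {E : Type*} [NormedAddCommGroup E] [InnerProductSpace ℝ E]

/-- `z` is moved by exactly `-v`, with explicit normal vectors -/
def Ref (A B : Set E) (v z : E) : Prop :=
  ∃ a ∈ A, a - v ∈ B ∧ (∀ a' ∈ A, ⟪z - a, a' - a⟫ ≤ 0) ∧
    ∀ b' ∈ B, ⟪v - (z - a), b' - (a - v)⟫ ≤ 0

theorem near_vi {C : Set E} (hC : Convex ℝ C) {x c : E} (hc : c ∈ C)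
    (h : ∀ y ∈ C, ‖x - c‖ ≤ ‖x - y‖) {y : E} (hy : y ∈ C) : ⟪x - c, y - c⟫ ≤ 0 := by
  have := (norm_eq_iInf_iff_real_inner_le_zero hC hc (u := x)).1 (by
    have : Nonempty C := ⟨⟨c, hc⟩⟩
    refine le_antisymm (le_ciInf fun w => h w w.2) ?_
    exact ciInf_le (f := fun w : C => ‖x - w‖) ⟨0, by rintro _ ⟨w, rfl⟩; exact norm_nonneg _⟩ ⟨c, hc⟩)
  exact this y hy

/-- an inner ball strengthens the variational inequality -/
theorem ball_vi {C : Set E} {w p c : E} {r : ℝ} (hr : 0 ≤ r) (hb : closedBall c r ⊆ C)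
    (h : ∀ y ∈ C, ⟪w, y - p⟫ ≤ 0) : ⟪w, c - p⟫ + r * ‖w‖ ≤ 0 := by
  rcases eq_or_ne w 0 with h0 | h0
  · simp [h0]
  have hw : 0 < ‖w‖ := norm_pos_iff.2 h0
  have h1 := h (c + (r / ‖w‖) • w) (hb (by
    rw [mem_closedBall, dist_eq_norm, add_sub_cancel_left, norm_smul, Real.norm_eq_abs,
      abs_of_nonneg (by positivity), div_mul_cancel₀ _ hw.ne']))
  rw [add_sub_right_comm, inner_add_right, real_inner_smul_right, real_inner_self_eq_norm_sq] at h1
  have h2 : r / ‖w‖ * ‖w‖ ^ 2 = r * ‖w‖ := by field_simp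
  linarith

theorem exists_small {G : ℕ → ℝ} (h0 : ∀ n, 0 ≤ G n) (hs : Summable G) :
    ∃ φ : ℕ → ℕ, StrictMono φ ∧ Tendsto (fun k => ((φ k : ℝ) + 1) * G (φ k)) atTop (𝓝 0) := by
  have hf : ∀ k : ℕ, ∃ᶠ n : ℕ in atTop, ((n : ℝ) + 1) * G n ≤ 1 / ((k : ℝ) + 1) := by
    intro k
    by_contra h
    rw [not_frequently] at h
    have h1 : Summable fun n : ℕ => 1 / ((k : ℝ) + 1) * (1 / ((n : ℝ) + 1)) := by
      refine Summable.of_norm_bounded_eventually_nat hs ?_
      filter_upwards [h] with n hn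
      rw [Real.norm_of_nonneg (by positivity), mul_one_div, div_le_iff₀ (by positivity)]
      linarith [not_le.1 hn]
    have h2 := (summable_mul_left_iff (by positivity)).1 h1
    have h3 := (summable_nat_add_iff (f := fun n : ℕ => 1 / (n : ℝ)) 1).1 (by simpa using h2)
    exact Real.not_summable_one_div_natCast h3
  obtain ⟨φ, hφ, h⟩ := extraction_forall_of_frequently hf
  exact ⟨φ, hφ, squeeze_zero (fun k => mul_nonneg (by positivity) (h0 _)) h
    tendsto_one_div_add_atTop_nhds_zero_nat⟩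

section
variable {A B : Set E} {PA PB : E → E} (hA : IsProj A PA) (hB : IsProj B PB)
  (cA : Convex ℝ A) (cB : Convex ℝ B)
include hA hB cA cB

theorem ref_step {v z : E} (hz : Ref A B v z) (x : E) :
    ‖drOp PA PB x + v - z‖ ≤ ‖x - z‖ := by
  obtain ⟨a, ha, hb, h1, h2⟩ := hz
  have h3 := h1 _ (hA x).1
  have h4 := h2 _ (hB (reflector PA x)).1
  have h5 := near_vi cA (hA x).1 (hA x).2 ha
  have h6 := near_vi cB (hB (reflector PA x)).1 (hB (reflector PA x)).2 hb
  rw [drOp_eq]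
  generalize PB (reflector PA x) = q at *
  unfold reflector at h6
  generalize PA x = p at *
  obtain ⟨u, rfl⟩ : ∃ u, z = a + u := ⟨z - a, by abel⟩
  obtain ⟨s, rfl⟩ : ∃ s, p = a + s := ⟨p - a, by abel⟩
  obtain ⟨e, rfl⟩ : ∃ e, q = a + s - v - e := ⟨a + s - v - q, by abel⟩
  obtain ⟨w, rfl⟩ : ∃ w, x = a + s + w := ⟨x - (a + s), by abel⟩
  have e1 : a + s + w - (a + s) + (a + s - v - e) + v - (a + u) = (s + w - u) - e := by abel
  have e2 : a + s + w - (a + u) = s + w - u := by abel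
  have e3 : (2 : ℝ) • (a + s) - (a + s + w) - (a + s - v - e) = v + e - w := by
    rw [two_smul]; abel
  rw [e3, show a - v - (a + s - v - e) = e - s by abel] at h6
  rw [show a + s + w - (a + s) = w by abel, show a - (a + s) = -s by abel] at h5
  rw [show a + u - a = u by abel] at h3 h4
  rw [show a + s - a = s by abel] at h3
  rw [show a + s - v - e - (a - v) = s - e by abel] at h4
  rw [e1, e2, ← sq_le_sq₀ (norm_nonneg _) (norm_nonneg _), norm_sub_sq_real (s + w - u) e]
  simp only [inner_add_left, inner_sub_left, inner_sub_right, inner_neg_right,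
    real_inner_self_eq_norm_sq, real_inner_comm s e] at *
  nlinarith [sq_nonneg ‖e‖]

/-- the basic inequality at a nearest pair with inner balls -/
theorem ball_step {a b : E} {r s : ℝ} (hr : 0 ≤ r) (hs : 0 ≤ s)
    (h1 : closedBall (a + r • (a - b)) (r * ‖a - b‖) ⊆ A)
    (h2 : closedBall (b - s • (a - b)) (s * ‖a - b‖) ⊆ B) (x : E) :
    ‖PA x - PB (reflector PA x) - (a - b)‖ ^ 2 + ⟪a - b, b - PB (reflector PA x)⟫ +
      r * (‖a - b‖ * ‖x - PA x‖ + ⟪x - PA x, a - b⟫) +
      s * (‖a - b‖ * ‖reflector PA x - PB (reflector PA x)‖ -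
        ⟪reflector PA x - PB (reflector PA x), a - b⟫) ≤
      ⟪x - a, PA x - PB (reflector PA x) - (a - b)⟫ := by
  have h5 := ball_vi (by positivity) h1 fun y hy => near_vi cA (hA x).1 (hA x).2 hy
  have h6 := ball_vi (by positivity) h2 fun y hy =>
    near_vi cB (hB (reflector PA x)).1 (hB (reflector PA x)).2 hy
  generalize PB (reflector PA x) = q at *
  unfold reflector at *
  generalize PA x = p at *
  obtain ⟨v, rfl⟩ : ∃ v, b = a - v := ⟨a - b, by abel⟩
  obtain ⟨t, rfl⟩ : ∃ t, p = a + t := ⟨p - a, by abel⟩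
  obtain ⟨e, rfl⟩ : ∃ e, q = a + t - v - e := ⟨a + t - v - q, by abel⟩
  obtain ⟨w, rfl⟩ : ∃ w, x = a + t + w := ⟨x - (a + t), by abel⟩
  have e0 : a - (a - v) = v := by abel
  have e3 : (2 : ℝ) • (a + t) - (a + t + w) - (a + t - v - e) = v + e - w := by
    rw [two_smul]; abel
  have e4 : a + t + w - (a + t) = w := by abel
  rw [e0, e4] at h5
  rw [e0, e3] at h6
  rw [e0, e3, e4]
  rw [show a + r • v - (a + t) = r • v - t by abel] at h5
  rw [show a - v - s • v - (a + t - v - e) = e - t - s • v by abel] at h6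
  rw [show a + t - (a + t - v - e) - v = e by abel, show a - v - (a + t - v - e) = e - t by abel,
    show a + t + w - a = t + w by abel]
  generalize ‖v + e - w‖ = N at *
  simp only [inner_add_left, inner_sub_left, inner_sub_right, real_inner_smul_right,
    real_inner_self_eq_norm_sq, real_inner_comm t e] at *
  nlinarith

end

/-- Gram determinant of `w` and `v` -/
def gram (v w : E) : ℝ := ‖v‖ ^ 2 * ‖w‖ ^ 2 - ⟪w, v⟫ ^ 2

theorem gram_add (v w : E) (c : ℝ) : gram v (w + c • v) = gram v w := by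
  unfold gram
  rw [norm_add_sq_real, inner_add_left, real_inner_smul_left, real_inner_smul_right, norm_smul,
    real_inner_self_eq_norm_sq, mul_pow, Real.norm_eq_abs, sq_abs]
  ring

theorem gram_neg (v w : E) : gram v (-w) = gram v w := by simp [gram]

theorem gram_le (v w : E) {M : ℝ} (h : ‖w‖ ≤ M) :
    gram v w ≤ 2 * ‖v‖ * M * (‖v‖ * ‖w‖ + ⟪w, v⟫) := by
  have h1 := abs_le.1 (abs_real_inner_le_norm w v)
  have h2 : ‖v‖ * ‖w‖ ≤ ‖v‖ * M := by gcongr
  calc gram v w = (‖v‖ * ‖w‖ - ⟪w, v⟫) * (‖v‖ * ‖w‖ + ⟪w, v⟫) := by unfold gram; ring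
    _ ≤ _ := mul_le_mul_of_nonneg_right (by linarith [h1.1]) (by linarith [h1.1])

theorem gram_zero {v w : E} (hv : v ≠ 0) (h : gram v w ≤ 0) : ∃ c : ℝ, w = c • v := by
  have hp : 0 < ‖v‖ := norm_pos_iff.2 hv
  refine ⟨⟪w, v⟫ / ‖v‖ ^ 2, ?_⟩
  have h1 := gram_add v w (-(⟪w, v⟫ / ‖v‖ ^ 2))
  have h2 : ⟪w + (-(⟪w, v⟫ / ‖v‖ ^ 2)) • v, v⟫ = 0 := by
    rw [inner_add_left, real_inner_smul_left, real_inner_self_eq_norm_sq]; field_simp; ring
  rw [← h1, gram, h2] at h
  have h3 : ‖w + (-(⟪w, v⟫ / ‖v‖ ^ 2)) • v‖ ^ 2 ≤ 0 :=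
    le_of_mul_le_mul_left (by linarith) (pow_pos hp 2)
  have h4 := norm_eq_zero.1 (pow_eq_zero_iff two_ne_zero |>.1 (le_antisymm h3 (sq_nonneg _)))
  rw [neg_smul, add_neg_eq_zero] at h4
  exact h4

theorem main [FiniteDimensional ℝ E] {A B : Set E} {PA PB : E → E} (hA : IsProj A PA)
    (hB : IsProj B PB) (cA : Convex ℝ A) (cB : Convex ℝ B) (kA : IsClosed A) (kB : IsClosed B)
    {a b : E} (ha : a ∈ A) (hb : b ∈ B) (hab : ∀ a' ∈ A, ∀ b' ∈ B, ‖a - b‖ ≤ ‖a' - b'‖)
    {r s : ℝ} (hr : 0 ≤ r) (hs : 0 ≤ s) (hrs : 0 < r + s)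
    (h1 : closedBall (a + r • (a - b)) (r * ‖a - b‖) ⊆ A)
    (h2 : closedBall (b - s • (a - b)) (s * ‖a - b‖) ⊆ B)
    (v : E) (hv : IsMinDisplacement (drOp PA PB) v) (x : E) :
    ∃ l : E, Tendsto (fun n : ℕ => (drOp PA PB)^[n] x + (n : ℝ) • v) atTop (𝓝 l) := by
  have vA : ∀ a' ∈ A, 0 ≤ ⟪a - b, a' - a⟫ := fun a' h => by
    have := near_vi cA ha (x := b) (fun y hy => by
      rw [norm_sub_rev, norm_sub_rev b]; exact hab y hy b hb) h
    rw [← neg_sub a b, inner_neg_left] at this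
    linarith
  have vB : ∀ b' ∈ B, 0 ≤ ⟪a - b, b - b'⟫ := fun b' h => by
    have := near_vi cB hb (x := a) (fun y hy => hab a ha y hy) h
    rw [← neg_sub b b', inner_neg_right] at this
    linarith
  have ve : ∀ z, 0 ≤ ⟪a - b, PA z - PB (reflector PA z) - (a - b)⟫ := fun z => by
    have := add_nonneg (vA _ (hA z).1) (vB _ (hB (reflector PA z)).1)
    rwa [← inner_add_right, show PA z - a + (b - PB (reflector PA z)) =
      PA z - PB (reflector PA z) - (a - b) by abel] at this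
  have hT : ∀ z, z - drOp PA PB z = PA z - PB (reflector PA z) := fun z => by rw [drOp_eq]; abel
  obtain rfl : v = a - b := by
    have h3 : ‖v‖ ≤ ‖a - b‖ := hv.2 _ (subset_closure ⟨a, by
      have e1 : PA a = a := hA.self ha
      have e2 : reflector PA a = a := by rw [reflector, e1, two_smul]; abel
      have e3 : PB a = b := hB.unique cB a b hb (hab a ha _ (hB a).1)
      simp only [hT, e1, e2, e3]⟩)
    have h4 : 0 ≤ ⟪a - b, v - (a - b)⟫ := by
      have hc : IsClosed {w : E | 0 ≤ ⟪a - b, w - (a - b)⟫} :=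
        isClosed_le continuous_const (by fun_prop)
      refine hc.closure_subset_iff.2 ?_ hv.1
      rintro _ ⟨z, rfl⟩
      simpa only [mem_ofPred_eq, hT] using ve z
    have h5 : ‖v‖ ^ 2 ≤ ‖a - b‖ ^ 2 := by gcongr
    have h6 := norm_add_sq_real (a - b) (v - (a - b))
    rw [add_sub_cancel] at h6
    have h7 : ‖v - (a - b)‖ ^ 2 ≤ 0 := by linarith
    exact sub_eq_zero.1 (norm_eq_zero.1 (pow_eq_zero_iff two_ne_zero |>.1
      (le_antisymm h7 (sq_nonneg _))))
  set v := a - b with hvd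
  set X : ℕ → E := fun n => (drOp PA PB)^[n] x with hX
  set y : ℕ → E := fun n => X n + (n : ℝ) • v with hy
  set p : ℕ → E := fun n => PA (X n) with hp
  set e : ℕ → E := fun n => PA (X n) - PB (reflector PA (X n)) - v with he
  set G : ℕ → ℝ := fun n => r * (‖v‖ * ‖X n - PA (X n)‖ + ⟪X n - PA (X n), v⟫) +
    s * (‖v‖ * ‖reflector PA (X n) - PB (reflector PA (X n))‖ -
      ⟪reflector PA (X n) - PB (reflector PA (X n)), v⟫) with hG
  have hXs : ∀ n, X (n + 1) = drOp PA PB (X n) := fun n => Function.iterate_succ_apply' _ _ _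
  have hys : ∀ n, y (n + 1) = y n - e n := fun n => by
    simp only [hy, he, hXs, drOp_eq, Nat.cast_succ, add_smul, one_smul]; abel
  have hG0 : ∀ n, 0 ≤ G n := fun n => by
    have h3 := (abs_le.1 (abs_real_inner_le_norm (X n - PA (X n)) v)).1
    have h4 := real_inner_le_norm (reflector PA (X n) - PB (reflector PA (X n))) v
    exact add_nonneg (mul_nonneg hr (by linarith)) (mul_nonneg hs (by linarith))
  have hD : ∀ n, ‖e n‖ ^ 2 + G n ≤ ‖y n - a‖ ^ 2 - ‖y (n + 1) - a‖ ^ 2 := fun n => by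
    have h3 := ball_step hA hB cA cB hr hs h1 h2 (X n)
    have h4 := vB _ (hB (reflector PA (X n))).1
    have h5 : 0 ≤ (n : ℝ) * ⟪v, e n⟫ := mul_nonneg n.cast_nonneg (ve (X n))
    have h6 : ⟪y n - a, e n⟫ = ⟪X n - a, e n⟫ + n * ⟪v, e n⟫ := by
      rw [← real_inner_smul_left, ← inner_add_left]; congr 1; simp only [hy]; abel
    have h7 := hG0 n
    rw [hys, sub_right_comm, norm_sub_sq_real (y n - a) (e n), h6]
    simp only [hG, he] at *
    linarith
  set R := ‖y 0 - a‖ with hR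
  have hyR : ∀ n, ‖y n - a‖ ≤ R := fun n => by
    induction n with
    | zero => exact le_rfl
    | succ n ih =>
      refine le_trans ?_ ih
      rw [← sq_le_sq₀ (norm_nonneg _) (norm_nonneg _)]
      linarith [hD n, hG0 n, sq_nonneg ‖e n‖]
  have hR0 : 0 ≤ R := norm_nonneg _
  have hsum : Summable fun n => ‖e n‖ ^ 2 + G n :=
    summable_of_sum_range_le (c := R ^ 2) (fun n => add_nonneg (sq_nonneg _) (hG0 n)) fun n => by
      refine (Finset.sum_le_sum fun i _ => hD i).trans ?_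
      rw [Finset.sum_range_sub' (fun i => ‖y i - a‖ ^ 2)]
      linarith [sq_nonneg ‖y n - a‖]
  have hw : ∀ n, X n - PA (X n) = (y n - p n) + (-(n : ℝ)) • v := fun n => by
    simp only [hy, hp, neg_smul]; abel
  have hw' : ∀ n, -(reflector PA (X n) - PB (reflector PA (X n))) =
      (y n - p n - e n) + (-((n : ℝ) + 1)) • v := fun n => by
    simp only [hy, hp, he, neg_smul, add_smul, one_smul]
    generalize PB (reflector PA (X n)) = q
    rw [reflector, two_smul]; abel
  have hpR : ∀ n, ‖p n - a‖ ≤ R := fun n => by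
    have h3 := hA.vi cA (X n) a ha
    have h4 : 0 ≤ (n : ℝ) * ⟪v, p n - a⟫ := mul_nonneg n.cast_nonneg (vA _ (hA (X n)).1)
    rw [hw, show y n - p n = (y n - a) - (p n - a) by abel, show a - PA (X n) = -(p n - a) by
      simp only [hp]; abel, inner_neg_right, inner_add_left, inner_sub_left, real_inner_smul_left,
      real_inner_self_eq_norm_sq] at h3
    have h5 := real_inner_le_norm (y n - a) (p n - a)
    have h6 := mul_le_mul_of_nonneg_right (hyR n) (norm_nonneg (p n - a))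
    by_contra h7
    nlinarith [norm_nonneg (p n - a), not_le.1 h7]
  have hg : ∀ n, ‖y n - p n‖ ≤ 2 * R := fun n => by
    rw [show y n - p n = (y n - a) - (p n - a) by abel]
    linarith [norm_sub_le (y n - a) (p n - a), hyR n, hpR n]
  have heR : ∀ n, ‖e n‖ ≤ 2 * R := fun n => by
    rw [show e n = (y n - a) - (y (n + 1) - a) by rw [hys]; abel]
    linarith [norm_sub_le (y n - a) (y (n + 1) - a), hyR n, hyR (n + 1)]
  have hgram : ∀ n : ℕ, r * gram v (y n - p n) + s * gram v (y n - p n - e n) ≤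
      2 * ‖v‖ * (4 * R + ‖v‖) * (((n : ℝ) + 1) * (‖e n‖ ^ 2 + G n)) := fun n => by
    have hn : (0 : ℝ) ≤ n := n.cast_nonneg
    have hnR := mul_nonneg hn hR0
    have h3 : ‖X n - PA (X n)‖ ≤ (4 * R + ‖v‖) * (n + 1) := by
      rw [hw]
      refine (norm_add_le _ _).trans ?_
      rw [norm_smul, norm_neg, Real.norm_of_nonneg hn]
      nlinarith [hg n, norm_nonneg v]
    have h4 : ‖-(reflector PA (X n) - PB (reflector PA (X n)))‖ ≤ (4 * R + ‖v‖) * (n + 1) := by
      rw [hw']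
      refine (norm_add_le _ _).trans ?_
      rw [norm_smul, norm_neg, Real.norm_of_nonneg (by linarith)]
      nlinarith [hg n, heR n, norm_sub_le (y n - p n) (e n)]
    have h5 := gram_le v _ h3
    have h6 := gram_le v _ h4
    rw [inner_neg_left, norm_neg] at h6
    rw [← gram_add v (y n - p n) (-(n : ℝ)), ← gram_add v (y n - p n - e n) (-((n : ℝ) + 1)),
      ← hw, ← hw']
    have h7 := add_le_add (mul_le_mul_of_nonneg_left h5 hr) (mul_le_mul_of_nonneg_left h6 hs)
    have h8 : 0 ≤ 2 * ‖v‖ * (4 * R + ‖v‖) * (((n : ℝ) + 1) * ‖e n‖ ^ 2) := by positivity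
    simp only [hG]
    linarith
  obtain ⟨φ, hφ, hφ0⟩ := exists_small (fun n => add_nonneg (sq_nonneg _) (hG0 n)) hsum
  obtain ⟨⟨l, c⟩, -, ψ, hψ, hl⟩ := ((isCompact_closedBall a R).prod
    (isCompact_closedBall a R)).tendsto_subseq (x := fun k => (y (φ k), p (φ k)))
    fun k => ⟨mem_closedBall_iff_norm.2 (hyR _), mem_closedBall_iff_norm.2 (hpR _)⟩
  have ty : Tendsto (fun k => y (φ (ψ k))) atTop (𝓝 l) := (continuous_fst.tendsto _).comp hl
  have tp : Tendsto (fun k => p (φ (ψ k))) atTop (𝓝 c) := (continuous_snd.tendsto _).comp hl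
  have tn : Tendsto (fun k => φ (ψ k)) atTop atTop := (hφ.comp hψ).tendsto_atTop
  have te : Tendsto (fun k => e (φ (ψ k))) atTop (𝓝 0) := by
    have h3 : Tendsto (fun n => ‖e n‖ ^ 2) atTop (𝓝 0) :=
      squeeze_zero (fun n => sq_nonneg _) (fun n => le_add_of_nonneg_right (hG0 n))
        hsum.tendsto_atTop_zero
    have h4 := h3.sqrt
    simp only [Real.sqrt_sq (norm_nonneg _), Real.sqrt_zero] at h4
    exact (tendsto_zero_iff_norm_tendsto_zero.2 h4).comp tn
  have hq : ∀ n, PB (reflector PA (X n)) = p n - v - e n := fun n => by simp only [hp, he]; abel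
  have tq : Tendsto (fun k => p (φ (ψ k)) - v - e (φ (ψ k))) atTop (𝓝 (c - v)) := by
    simpa using (tp.sub_const v).sub te
  have hcA : c ∈ A := kA.mem_of_tendsto tp (Eventually.of_forall fun k => (hA _).1)
  have hcB : c - v ∈ B := kB.mem_of_tendsto tq (Eventually.of_forall fun k => hq _ ▸ (hB _).1)
  have tg' : Tendsto (fun k => y (φ (ψ k)) - p (φ (ψ k)) - e (φ (ψ k))) atTop (𝓝 (l - c)) := by
    simpa using (ty.sub tp).sub te
  have hgl : gram v (l - c) ≤ 0 := by
    have cg : Continuous (gram v) := by unfold gram; fun_prop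
    have h3 := (((cg.tendsto _).comp (ty.sub tp)).const_mul r).add
      (((cg.tendsto _).comp tg').const_mul s)
    have h4 := (hφ0.comp hψ.tendsto_atTop).const_mul (2 * ‖v‖ * (4 * R + ‖v‖))
    have h5 := le_of_tendsto_of_tendsto' h3 h4 fun k => hgram _
    rw [mul_zero, ← add_mul] at h5
    exact le_of_mul_le_mul_left (by linarith) hrs
  have href : ∃ n0 : ℕ, ∀ n ≥ n0, Ref A B v (l - (n : ℝ) • v) := by
    rcases eq_or_ne v 0 with h0 | h0
    · refine ⟨0, fun n _ => ⟨c, hcA, hcB, fun a' h => ?_, fun b' h => ?_⟩⟩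
      · rw [h0, smul_zero, sub_zero]
        refine le_of_tendsto' ((ty.sub tp).inner (tp.const_sub a')) fun k => ?_
        have := hA.vi cA (X (φ (ψ k))) a' h
        rwa [hw, h0, smul_zero, add_zero] at this
      · rw [h0, smul_zero, sub_zero, zero_sub, ← h0]
        refine le_of_tendsto' (tg'.neg.inner (tq.const_sub b')) fun k => ?_
        have h3 := hB.vi cB (reflector PA (X (φ (ψ k)))) b' h
        have h4 := hw' (φ (ψ k))
        rw [h0, smul_zero, add_zero, neg_eq_iff_eq_neg] at h4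
        rwa [h4, hq] at h3
    · obtain ⟨t, ht⟩ := gram_zero h0 hgl
      have h3 : ⟪v, c - a⟫ = 0 := by
        have h4 := vB _ hcB
        rw [show b - (c - v) = -(c - a) by rw [hvd]; abel, inner_neg_right] at h4
        linarith [vA _ hcA]
      refine ⟨⌈t⌉₊, fun n hn => ?_⟩
      have h5 : t ≤ n := (Nat.le_ceil t).trans (by exact_mod_cast hn)
      have h6 : l - (n : ℝ) • v - c = (t - n) • v := by rw [sub_smul, ← ht]; abel
      refine ⟨c, hcA, hcB, fun a' h => ?_, fun b' h => ?_⟩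
      · rw [h6, real_inner_smul_left, show a' - c = (a' - a) - (c - a) by abel, inner_sub_right, h3]
        nlinarith [vA _ h]
      · rw [h6, inner_sub_left, real_inner_smul_left,
          show b' - (c - v) = -(b - b') - (c - a) by rw [hvd]; abel, inner_sub_right, h3,
          inner_neg_right]
        nlinarith [vB _ h]
  obtain ⟨n0, hn0⟩ := href
  have hmono : ∀ n ≥ n0, ∀ m ≥ n, ‖y m - l‖ ≤ ‖y n - l‖ := by
    intro n hn m hm
    induction m, hm using Nat.le_induction with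
    | base => exact le_rfl
    | succ m hm ih =>
      refine le_trans ?_ ih
      have h3 := ref_step hA hB cA cB (hn0 m (hn.trans hm)) (X m)
      rwa [← hXs, show X (m + 1) + v - (l - (m : ℝ) • v) = y (m + 1) - l by
          simp only [hy, Nat.cast_succ, add_smul, one_smul]; abel,
        show X m - (l - (m : ℝ) • v) = y m - l by simp only [hy]; abel] at h3
  refine ⟨l, Metric.tendsto_atTop.2 fun ε hε => ?_⟩
  obtain ⟨k, hk1, hk2⟩ := (((Metric.tendsto_nhds.1 ty) ε hε).and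
    (tn.eventually (eventually_ge_atTop n0))).exists
  refine ⟨φ (ψ k), fun m hm => ?_⟩
  rw [dist_eq_norm] at hk1 ⊢
  exact (hmono _ hk2 m hm).trans_lt hk1

end Pool.Agent.Lib.MP_ef197a_an.S77
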