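import Pool.Agent.Lib.MP_ef197a_an.Defs

set_option autoImplicit false

namespace Pool.Agent.Lib.MP_ef197a_an.Spiral

open Filter Topology RealInnerProductSpace

/-- upper bound for the elapsed height -/
def U : ℕ → ℕ
  | 0 => 1
  | j + 1 => U j + 2 * (64 * (j + 2) ^ 3 * U j)

/-- number of steps spent at vertex `j` -/
def L (j : ℕ) : ℕ := 64 * (j + 2) ^ 3 * U j

/-- time at which vertex `j` is first used -/
def N : ℕ → ℕ
  | 0 => 0
  | j + 1 => N j + L j

lemma U_pos (j : ℕ) : 1 ≤ U j := by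
  induction j with
  | zero => simp [U]
  | succ j ih => simp only [U]; omega

lemma U_succ (j : ℕ) : U (j + 1) = U j + 2 * L j := rfl

lemma L_ge (j : ℕ) : 64 * U j ≤ L j := by
  have : 1 ≤ (j + 2) ^ 3 := Nat.one_le_pow _ _ (by omega)
  unfold L
  nlinarith [U_pos j]

lemma L_pos (j : ℕ) : 64 ≤ L j := by
  have := L_ge j
  have := U_pos j
  omega

lemma L_two (j : ℕ) : 2 * L j ≤ L (j + 1) := by
  have := L_ge (j + 1)
  rw [U_succ] at this
  omega

lemma L_mono : Monotone L := monotone_nat_of_le_succ fun j => by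
  have := L_two j
  omega

lemma L_lin (j : ℕ) : j ≤ L j := by
  induction j with
  | zero => omega
  | succ j ih =>
    have := L_two j
    have := L_pos j
    omega

lemma N_ge (j : ℕ) : j ≤ N j := by
  induction j with
  | zero => omega
  | succ j ih =>
    have := L_pos j
    simp only [N]; omega

lemma Lr_pos (j : ℕ) : (0 : ℝ) < L j := by
  have := L_pos j
  exact_mod_cast (by omega : 0 < L j)

lemma inv_L : Tendsto (fun j => ((L j : ℝ))⁻¹) atTop (𝓝 0) :=
  tendsto_inv_atTop_zero.comp (tendsto_natCast_atTop_atTop.comp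
    (tendsto_atTop_mono L_lin tendsto_id))

variable {E : Type*} [NormedAddCommGroup E] [InnerProductSpace ℝ E]

/-- the data of the construction -/
structure Ok (W : ℕ → E) (e : E) : Prop where
  unit : ‖e‖ = 1
  perp : ∀ j, ⟪W j, e⟫ = 0
  bdd : ∀ j, ‖W j‖ ≤ 2
  gain : ∀ j : ℕ, 1 / ((j : ℝ) + 2) ^ 3 ≤ ⟪W (j + 1), W j - W (j + 1)⟫
  turn : ∀ u : E, ⟪u, e⟫ = 0 → (∃ c, Tendsto (fun j => ⟪u, W j⟫) atTop (𝓝 c)) → u = 0

/-- horizontal part of vertex `j` -/
noncomputable def D (W : ℕ → E) (j : ℕ) : E := ((L j : ℝ))⁻¹ • (W j - W (j + 1))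

/-- the jump of the linear functional -/
noncomputable def g (W : ℕ → E) (j : ℕ) : ℝ := ⟪W (j + 1), D W j⟫ - ⟪W (j + 1), D W (j + 1)⟫

/-- heights of the vertices and of the orbit -/
noncomputable def qT (W : ℕ → E) : ℕ → ℝ × ℝ
  | 0 => (2, 1)
  | j + 1 => ((qT W j).1 - g W j / ((qT W j).2 + L j * (qT W j).1),
      (qT W j).2 + L j * (qT W j).1)

noncomputable def q (W : ℕ → E) (j : ℕ) : ℝ := (qT W j).1
noncomputable def T (W : ℕ → E) (j : ℕ) : ℝ := (qT W j).2

lemma T_succ (W : ℕ → E) (j : ℕ) : T W (j + 1) = T W j + L j * q W j := rfl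
lemma q_succ (W : ℕ → E) (j : ℕ) : q W (j + 1) = q W j - g W j / T W (j + 1) := rfl

variable {W : ℕ → E} {e : E}

lemma D_norm (h : Ok W e) (j : ℕ) : ‖D W j‖ ≤ 4 / L j := by
  have h1 := norm_sub_le (W j) (W (j + 1))
  have h2 := h.bdd j
  have h3 := h.bdd (j + 1)
  have hL := Lr_pos j
  rw [D, norm_smul, norm_inv, Real.norm_of_nonneg hL.le, div_eq_inv_mul]
  exact mul_le_mul_of_nonneg_left (by linarith) (inv_nonneg.2 hL.le)

lemma WD (h : Ok W e) (j i : ℕ) : |⟪W j, D W i⟫| ≤ 8 / L i := by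
  have h1 := abs_real_inner_le_norm (W j) (D W i)
  have h2 := D_norm h i
  have h3 := h.bdd j
  have h4 : ‖W j‖ * ‖D W i‖ ≤ 2 * (4 / L i) := mul_le_mul h3 h2 (norm_nonneg _) (by norm_num)
  have : (2 : ℝ) * (4 / L i) = 8 / L i := by ring
  linarith

lemma D_perp (h : Ok W e) (j : ℕ) : ⟪D W j, e⟫ = 0 := by
  rw [D, real_inner_smul_left, inner_sub_left, h.perp, h.perp]; simp

lemma sig (j : ℕ) : (64 : ℝ) * U j / L j = 1 / ((j : ℝ) + 2) ^ 3 := by
  have hU : (0 : ℝ) < U j := by exact_mod_cast U_pos j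
  unfold L
  push_cast
  field_simp

lemma sig_mono (j : ℕ) : (64 : ℝ) * U (j + 1) / L (j + 1) ≤ 1 / ((j : ℝ) + 2) ^ 3 := by
  rw [sig]
  apply one_div_le_one_div_of_le (by positivity)
  push_cast
  apply pow_le_pow_left₀ (by positivity) (by linarith)

lemma gain1 (h : Ok W e) (j : ℕ) : 1 / ((j : ℝ) + 2) ^ 3 / L j ≤ ⟪W (j + 1), D W j⟫ := by
  rw [D, real_inner_smul_right, div_eq_inv_mul]
  exact mul_le_mul_of_nonneg_left (h.gain j) (inv_nonneg.2 (Lr_pos j).le)

lemma gain0 (h : Ok W e) (j : ℕ) : 1 / ((j : ℝ) + 2) ^ 3 / L j ≤ ⟪W j, D W j⟫ := by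
  rw [D, real_inner_smul_right, div_eq_inv_mul]
  refine mul_le_mul_of_nonneg_left ?_ (inv_nonneg.2 (Lr_pos j).le)
  have h1 : ⟪W j, W j - W (j + 1)⟫ = ⟪W (j + 1), W j - W (j + 1)⟫
      + ⟪W j - W (j + 1), W j - W (j + 1)⟫ := by
    rw [← inner_add_left]; congr 1; abel
  have h2 := real_inner_self_nonneg (x := W j - W (j + 1))
  have := h.gain j
  linarith

/-- the next vertex is much shorter than the gain -/
lemma next_small (j : ℕ) : (8 : ℝ) / L (j + 1) ≤ 1 / ((j : ℝ) + 2) ^ 3 / L j / 2 := by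
  have h1 := sig_mono j
  have hL := Lr_pos j
  have hL' := Lr_pos (j + 1)
  have hU : (2 : ℝ) * L j ≤ U (j + 1) := by
    have : 2 * L j ≤ U (j + 1) := by rw [U_succ]; omega
    exact_mod_cast this
  have h2 : (128 : ℝ) * L j / L (j + 1) ≤ 64 * U (j + 1) / L (j + 1) :=
    div_le_div_of_nonneg_right (by linarith) hL'.le
  have h3 : (8 : ℝ) / L (j + 1) = 128 * L j / L (j + 1) / L j / 16 := by field_simp; norm_num
  have h4 : (128 : ℝ) * L j / L (j + 1) / L j ≤ 1 / ((j : ℝ) + 2) ^ 3 / L j :=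
    div_le_div_of_nonneg_right (h2.trans h1) hL.le
  have h5 : (0 : ℝ) ≤ 1 / ((j : ℝ) + 2) ^ 3 / L j := by positivity
  rw [h3]; linarith

lemma g_low (h : Ok W e) (j : ℕ) : 1 / ((j : ℝ) + 2) ^ 3 / L j / 2 ≤ g W j := by
  have h1 := gain1 h j
  have h2 := (abs_le.1 (WD h (j + 1) (j + 1))).2
  have h3 := next_small j
  unfold g; linarith

lemma g_pos (h : Ok W e) (j : ℕ) : 0 < g W j := by
  have hL := Lr_pos j
  exact lt_of_lt_of_le (by positivity) (g_low h j)

lemma inv_mono {i j : ℕ} (hij : i ≤ j) (c : ℝ) (hc : 0 ≤ c) : c / L j ≤ c / L i :=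
  div_le_div_of_nonneg_left hc (Lr_pos i) (by exact_mod_cast L_mono hij)

lemma g_up (h : Ok W e) (j : ℕ) : g W j ≤ 16 / L j := by
  have h1 := (abs_le.1 (WD h (j + 1) j)).2
  have h2 := (abs_le.1 (WD h (j + 1) (j + 1))).1
  have h3 := inv_mono (Nat.le_succ j) 8 (by norm_num)
  have : (16 : ℝ) / L j = 8 / L j + 8 / L j := by ring
  unfold g; linarith

lemma sq_step (j : ℕ) : (32 : ℝ) / (L (j + 1) : ℝ) ^ 2 ≤ 16 / (L j : ℝ) ^ 2 := by
  have hL := Lr_pos j
  have h2 : (2 : ℝ) * L j ≤ L (j + 1) := by exact_mod_cast L_two j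
  rw [div_le_div_iff₀ (by have := Lr_pos (j + 1); positivity) (by positivity)]
  nlinarith

lemma drop (h : Ok W e) (j : ℕ) (hq : 1 ≤ q W j) (hT : 0 < T W j) :
    g W j / T W (j + 1) ≤ 16 / (L j : ℝ) ^ 2 := by
  have hL := Lr_pos j
  have h1 : (L j : ℝ) ≤ T W (j + 1) := by rw [T_succ]; nlinarith
  calc g W j / T W (j + 1) ≤ 16 / L j / L j :=
        div_le_div₀ (by positivity) (g_up h j) hL h1
    _ = 16 / (L j : ℝ) ^ 2 := by field_simp

lemma inv (h : Ok W e) (j : ℕ) :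
    1 + 32 / (L j : ℝ) ^ 2 ≤ q W j ∧ q W j ≤ 2 ∧ 0 < T W j ∧ T W j ≤ U j := by
  induction j with
  | zero =>
    have h1 : (64 : ℝ) ≤ L 0 := by exact_mod_cast L_pos 0
    have h2 : (32 : ℝ) / (L 0 : ℝ) ^ 2 ≤ 1 := by
      rw [div_le_one (by positivity)]; nlinarith
    refine ⟨?_, le_rfl, ?_, ?_⟩
    · show _ ≤ (2 : ℝ); linarith
    · show (0 : ℝ) < 1; norm_num
    · show (1 : ℝ) ≤ _; exact_mod_cast U_pos 0
  | succ j ih =>
    obtain ⟨h1, h2, h3, h4⟩ := ih
    have hL := Lr_pos j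
    have h0 : (0 : ℝ) ≤ 32 / (L j : ℝ) ^ 2 := by positivity
    have hq : 1 ≤ q W j := by linarith
    have hT : 0 < T W (j + 1) := by rw [T_succ]; nlinarith
    have h5 := drop h j hq h3
    have h6 := sq_step j
    have h7 : 0 ≤ g W j / T W (j + 1) := div_nonneg (g_pos h j).le hT.le
    have h8 : (32 : ℝ) / (L j : ℝ) ^ 2 = 16 / (L j : ℝ) ^ 2 + 16 / (L j : ℝ) ^ 2 := by ring
    refine ⟨?_, ?_, hT, ?_⟩
    · rw [q_succ]; linarith
    · rw [q_succ]; linarith
    · rw [T_succ, U_succ]; push_cast; nlinarith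

lemma q_one (h : Ok W e) (j : ℕ) : 1 ≤ q W j := by
  have h1 := (inv h j).1
  have h0 : (0 : ℝ) ≤ 32 / (L j : ℝ) ^ 2 := by positivity
  linarith

lemma T_pos (h : Ok W e) (j : ℕ) : 0 < T W j := (inv h j).2.2.1

lemma q_lt (h : Ok W e) (j : ℕ) : q W (j + 1) < q W j := by
  have := div_pos (g_pos h j) (T_pos h (j + 1))
  rw [q_succ]; linarith

lemma q_anti (h : Ok W e) : Antitone (q W) := antitone_nat_of_succ_le fun j => (q_lt h j).le

lemma T_mono (h : Ok W e) : Monotone (T W) := monotone_nat_of_le_succ fun j => by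
  have := q_one h j
  have := Lr_pos j
  rw [T_succ]; nlinarith

lemma q_tail (h : Ok W e) {j i : ℕ} (hji : j ≤ i) : q W j - q W i ≤ 32 / (L j : ℝ) ^ 2 := by
  have key : ∀ i, j ≤ i → q W j - 32 / (L j : ℝ) ^ 2 ≤ q W i - 32 / (L i : ℝ) ^ 2 := by
    intro i hi
    induction i, hi using Nat.le_induction with
    | base => exact le_rfl
    | succ i _ ih =>
      have h5 := drop h i (q_one h i) (T_pos h i)
      have h6 := sq_step i
      have h8 : (32 : ℝ) / (L i : ℝ) ^ 2 = 16 / (L i : ℝ) ^ 2 + 16 / (L i : ℝ) ^ 2 := by ring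
      rw [q_succ]; linarith
  have h1 := key i hji
  have h0 : (0 : ℝ) ≤ 32 / (L i : ℝ) ^ 2 := by positivity
  linarith

/-- vertices -/
noncomputable def p (W : ℕ → E) (e : E) (j : ℕ) : E := D W j + q W j • e

/-- corners of the orbit -/
noncomputable def X (W : ℕ → E) (e : E) (j : ℕ) : E := W j - T W j • e

lemma X_succ (W : ℕ → E) (e : E) (j : ℕ) : X W e (j + 1) = X W e j - (L j : ℝ) • p W e j := by
  have hL := (Lr_pos j).ne'
  rw [X, X, p, T_succ, D, smul_add, smul_smul, mul_inv_cancel₀ hL, one_smul, smul_smul, add_smul]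
  abel

lemma Xp (h : Ok W e) (j i : ℕ) : ⟪X W e j, p W e i⟫ = ⟪W j, D W i⟫ - T W j * q W i := by
  have h1 : ⟪e, D W i⟫ = 0 := by rw [real_inner_comm]; exact D_perp h i
  have h2 : ⟪e, e⟫ = (1 : ℝ) := by rw [real_inner_self_eq_norm_sq, h.unit]; norm_num
  rw [X, p, inner_sub_left, inner_add_right, inner_add_right, real_inner_smul_left,
    real_inner_smul_left, real_inner_smul_right, real_inner_smul_right, h.perp, h1, h2]
  ring

lemma tie (h : Ok W e) (j : ℕ) : ⟪X W e (j + 1), p W e j⟫ = ⟪X W e (j + 1), p W e (j + 1)⟫ := by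
  have hT := (T_pos h (j + 1)).ne'
  rw [Xp h, Xp h, q_succ, mul_sub, mul_div_cancel₀ _ hT, g]
  ring

lemma top (h : Ok W e) (j i : ℕ) : ⟪X W e j, p W e i⟫ ≤ ⟪X W e j, p W e j⟫ := by
  rcases lt_trichotomy i j with hij | rfl | hij
  · rcases (Nat.succ_le_of_lt hij).eq_or_lt with rfl | h2
    · exact (tie h i).le
    · rw [Xp h, Xp h]
      have hL := Lr_pos i
      have hL' := Lr_pos (i + 1)
      have a1 := (abs_le.1 (WD h j i)).2
      have a2 := (abs_le.1 (WD h j j)).1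
      have a3 := inv_mono hij.le 8 (by norm_num)
      have a4 : g W i / T W (i + 1) ≤ q W i - q W j := by
        have := q_anti h (Nat.succ_le_of_lt hij)
        rw [q_succ] at this; linarith
      have a5 : (L (i + 1) : ℝ) ≤ T W j := by
        have b1 := T_mono h (show i + 1 + 1 ≤ j from h2)
        have b2 := q_one h (i + 1)
        have b3 := T_pos h (i + 1)
        rw [T_succ] at b1; nlinarith
      have a6 := (inv h (i + 1)).2.2.2
      have a7 := T_pos h (i + 1)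
      have a8 : (64 : ℝ) * U (i + 1) / L (i + 1) / L i / 2 ≤ g W i := by
        have := div_le_div_of_nonneg_right (sig_mono i) hL.le
        have := g_low h i
        linarith
      have a9 : (64 : ℝ) * U (i + 1) / L (i + 1) / L i / 2 / U (i + 1) ≤ g W i / T W (i + 1) :=
        div_le_div₀ (g_pos h i).le a8 a7 a6
      have hU : (0 : ℝ) < U (i + 1) := by linarith
      have a10 : (64 : ℝ) * U (i + 1) / L (i + 1) / L i / 2 / U (i + 1)
          = 32 / L i / L (i + 1) := by field_simp; norm_num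
      have a11 : (L (i + 1) : ℝ) * (32 / L i / L (i + 1)) ≤ T W j * (q W i - q W j) :=
        mul_le_mul a5 (by linarith) (by positivity) (T_pos h j).le
      have a12 : (L (i + 1) : ℝ) * (32 / L i / L (i + 1)) = 4 * (8 / L i) := by
        field_simp; norm_num
      have a13 : (0 : ℝ) ≤ 8 / L i := by positivity
      nlinarith
  · exact le_rfl
  · rw [Xp h, Xp h]
    have hL := Lr_pos j
    have a1 := (abs_le.1 (WD h j i)).2
    have a2 := inv_mono (Nat.succ_le_of_lt hij) 8 (by norm_num)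
    have a3 := next_small j
    have a4 := gain0 h j
    have a5 := q_tail h hij.le
    have a6 := (inv h j).2.2.2
    have a7 := T_pos h j
    have a8 : T W j * (q W j - q W i) ≤ U j * (32 / (L j : ℝ) ^ 2) :=
      mul_le_mul a6 a5 (sub_nonneg.2 (q_anti h hij.le)) (by linarith)
    have a9 : (U j : ℝ) * (32 / (L j : ℝ) ^ 2) = 1 / ((j : ℝ) + 2) ^ 3 / L j / 2 := by
      rw [← sig]; field_simp; ring
    have a10 : (8 : ℝ) / L (j.succ) = 8 / L (j + 1) := rfl
    nlinarith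

end Pool.Agent.Lib.MP_ef197a_an.Spiral
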