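import Pool.Agent.Lib.MP_ef197a_an.Spiral

set_option autoImplicit false

namespace Pool.Agent.Lib.MP_ef197a_an.Spiral

open Filter Topology RealInnerProductSpace

variable {E : Type*} [NormedAddCommGroup E] [InnerProductSpace ℝ E] {W : ℕ → E} {e : E}

/-- the generating set -/
def gens (W : ℕ → E) (e : E) : Set E := Set.range (p W e) ∪ Metric.closedBall ((6 : ℝ) • e) 1

/-- the convex body -/
def body (W : ℕ → E) (e : E) : Set E := closedConvexHull ℝ (gens W e)

lemma p_mem (j : ℕ) : p W e j ∈ body W e := subset_closedConvexHull (Or.inl ⟨j, rfl⟩)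

lemma body_int : (interior (body W e)).Nonempty :=
  ⟨(6 : ℝ) • e, interior_maximal (fun _ ha => subset_closedConvexHull
    (Or.inr (Metric.ball_subset_closedBall ha))) Metric.isOpen_ball (Metric.mem_ball_self one_pos)⟩

lemma half {y : E} {c : ℝ} (h : ∀ a ∈ gens W e, ⟪y, a⟫ ≤ c) {a : E} (ha : a ∈ body W e) :
    ⟪y, a⟫ ≤ c := by
  have h1 : body W e ⊆ {a | ⟪y, a⟫ ≤ c} :=
    closedConvexHull_min h
      (convex_halfSpace_le (innerₛₗ ℝ y).isLinear c)
      (isClosed_le (continuous_const.inner continuous_id) continuous_const)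
  exact h1 ha

lemma ee (h : Ok W e) : ⟪e, e⟫ = (1 : ℝ) := by
  rw [real_inner_self_eq_norm_sq, h.unit]; norm_num

lemma ball_high (h : Ok W e) {a : E} (ha : a ∈ Metric.closedBall ((6 : ℝ) • e) 1) :
    5 ≤ ⟪e, a⟫ := by
  have h1 := abs_real_inner_le_norm e (a - (6 : ℝ) • e)
  rw [mem_closedBall_iff_norm] at ha
  rw [h.unit, inner_sub_right, real_inner_smul_right, ee h] at h1
  linarith [(abs_le.1 h1).1]

lemma topS (h : Ok W e) (j : ℕ) {a : E} (ha : a ∈ gens W e) :
    ⟪X W e j, a⟫ ≤ ⟪X W e j, p W e j⟫ := by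
  rcases ha with ⟨i, rfl⟩ | ha
  · exact top h j i
  · have h1 := ball_high h ha
    have h2 := real_inner_le_norm (W j) (a - (6 : ℝ) • e)
    rw [mem_closedBall_iff_norm] at ha
    rw [inner_sub_right, real_inner_smul_right, h.perp] at h2
    have h3 : ‖W j‖ * ‖a - (6 : ℝ) • e‖ ≤ 2 * 1 :=
      mul_le_mul (h.bdd j) ha (norm_nonneg _) (by norm_num)
    have h4 := (abs_le.1 (WD h j j)).1
    have h5 : (64 : ℝ) ≤ L j := by exact_mod_cast L_pos j
    have h6 : (8 : ℝ) / L j ≤ 1 := by rw [div_le_one (by linarith)]; linarith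
    have h7 : (1 : ℝ) ≤ T W j := T_mono h (Nat.zero_le j)
    have h8 := (inv h j).2.1
    rw [Xp h, X, inner_sub_left, real_inner_smul_left]
    nlinarith

lemma proj_eq {A : Set E} {P : E → E} (hP : IsProj A P) {y b : E} (hb : b ∈ A)
    (h : ∀ a ∈ A, ⟪y, a⟫ ≤ ⟪y, b⟫) : P (y + b) = b := by
  obtain ⟨h1, h2⟩ := hP (y + b)
  have h3 := h2 b hb
  have h4 := h _ h1
  rw [add_sub_cancel_right] at h3
  have h5 : y + b - P (y + b) = y - (P (y + b) - b) := by abel
  have h6 := norm_sub_sq_real y (P (y + b) - b)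
  rw [← h5, inner_sub_right] at h6
  have h7 : ‖y + b - P (y + b)‖ ^ 2 ≤ ‖y‖ ^ 2 := pow_le_pow_left₀ (norm_nonneg _) h3 2
  have h8 : ‖P (y + b) - b‖ ^ 2 ≤ 0 := by linarith
  have h9 : ‖P (y + b) - b‖ = 0 := by nlinarith [norm_nonneg (P (y + b) - b)]
  exact sub_eq_zero.1 (norm_eq_zero.1 h9)

lemma dr_zero (PA : E → E) (x : E) : drOp PA (fun _ => 0) x = x - PA x := by
  simp only [drOp, reflector]
  module

lemma seg (h : Ok W e) (j m : ℕ) (hm : m ≤ L j) (a : E) (ha : a ∈ gens W e) :
    ⟪X W e j - (m : ℝ) • p W e j, a⟫ ≤ ⟪X W e j - (m : ℝ) • p W e j, p W e j⟫ := by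
  have hL := Lr_pos j
  have hm' : (m : ℝ) ≤ L j := by exact_mod_cast hm
  have h0 : (0 : ℝ) ≤ m := by positivity
  have h1 := topS h j ha
  have h2 := topS h (j + 1) ha
  rw [← tie h j, X_succ] at h2
  simp only [inner_sub_left, real_inner_smul_left] at h2 ⊢
  by_contra hc
  push Not at hc
  nlinarith

lemma orbit (h : Ok W e) {P : E → E} (hP : IsProj (body W e) P) (j m : ℕ) (hm : m ≤ L j) :
    (drOp P fun _ => 0)^[m] (X W e j) = X W e j - (m : ℝ) • p W e j := by
  induction m with
  | zero => simp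
  | succ m ih =>
    rw [Function.iterate_succ_apply', ih (by omega), dr_zero]
    have h1 : X W e j - (m : ℝ) • p W e j
        = (X W e j - ((m + 1 : ℕ) : ℝ) • p W e j) + p W e j := by
      push_cast; module
    have h2 := proj_eq hP (p_mem j) (fun a ha => half (seg h j (m + 1) hm) ha)
    rw [← h1] at h2
    rw [h2]; push_cast; module

lemma orbitN (h : Ok W e) {P : E → E} (hP : IsProj (body W e) P) (j : ℕ) :
    (drOp P fun _ => 0)^[N j] (X W e 0) = X W e j := by
  induction j with
  | zero => rfl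
  | succ j ih =>
    rw [show N (j + 1) = L j + N j from add_comm _ _, Function.iterate_add_apply, ih,
      orbit h hP j _ le_rfl, X_succ]

lemma proj_X (h : Ok W e) {P : E → E} (hP : IsProj (body W e) P) (j : ℕ) :
    P (X W e j) = p W e j := by
  have h1 := orbit h hP j 1 (by have := L_pos j; omega)
  rw [Function.iterate_one, dr_zero] at h1
  simpa using h1

/-- limit height -/
noncomputable def qi (W : ℕ → E) : ℝ := ⨅ j, q W j

lemma q_bdd (h : Ok W e) : BddBelow (Set.range (q W)) :=
  ⟨1, by rintro _ ⟨j, rfl⟩; exact q_one h j⟩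

lemma q_lim (h : Ok W e) : Tendsto (q W) atTop (𝓝 (qi W)) :=
  tendsto_atTop_ciInf (q_anti h) (q_bdd h)

lemma qi_le (h : Ok W e) (j : ℕ) : qi W ≤ q W j := ciInf_le (q_bdd h) j

lemma qi_one (h : Ok W e) : 1 ≤ qi W := le_ciInf (q_one h)

lemma qi_tail (h : Ok W e) (j : ℕ) : q W j - qi W ≤ 32 / (L j : ℝ) ^ 2 :=
  le_of_tendsto (tendsto_const_nhds.sub (q_lim h))
    (eventually_atTop.2 ⟨j, fun _ hi => q_tail h hi⟩)

lemma p_lim (h : Ok W e) : Tendsto (p W e) atTop (𝓝 (qi W • e)) := by
  have h1 : Tendsto (D W) atTop (𝓝 0) := by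
    refine squeeze_zero_norm (D_norm h) ?_
    simpa [div_eq_mul_inv] using inv_L.const_mul 4
  have h2 := h1.add ((q_lim h).smul_const e)
  rw [zero_add] at h2
  exact h2

lemma ep (h : Ok W e) (i : ℕ) : ⟪e, p W e i⟫ = q W i := by
  rw [p, inner_add_right, real_inner_smul_right, ee h, real_inner_comm, D_perp h]; ring

lemma v_mem (h : Ok W e) : qi W • e ∈ body W e :=
  isClosed_closedConvexHull.mem_of_tendsto (p_lim h) (Eventually.of_forall p_mem)

lemma height (h : Ok W e) {a : E} (ha : a ∈ body W e) : qi W ≤ ⟪e, a⟫ := by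
  have := half (y := -e) (c := -qi W) (by
    rintro a (⟨i, rfl⟩ | hb)
    · rw [inner_neg_left, ep h]; exact neg_le_neg (qi_le h i)
    · rw [inner_neg_left]
      linarith [ball_high h hb, qi_le h 0, (inv h 0).2.1]) ha
  rw [inner_neg_left] at this
  linarith

lemma bounded (h : Ok W e) : body W e ⊆ Metric.closedBall 0 7 := by
  refine closedConvexHull_min ?_ (convex_closedBall _ _) Metric.isClosed_closedBall
  rintro a (⟨j, rfl⟩ | ha)
  swap
  · refine Metric.closedBall_subset_closedBall' ?_ ha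
    rw [dist_zero_right, norm_smul, h.unit]; norm_num
  have h1 := D_norm h j
  have h2 : (64 : ℝ) ≤ L j := by exact_mod_cast L_pos j
  have h3 : (4 : ℝ) / L j ≤ 1 := by rw [div_le_one (by linarith)]; linarith
  have h4 := norm_add_le (D W j) (q W j • e)
  rw [norm_smul, h.unit, Real.norm_of_nonneg (by linarith [q_one h j])] at h4
  have h5 := (inv h j).2.1
  rw [mem_closedBall_zero_iff, p]; linarith

lemma minDisp (h : Ok W e) {P : E → E} (hP : IsProj (body W e) P) :
    IsMinDisplacement (drOp P fun _ => 0) (qi W • e) := by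
  have h0 : ∀ x, x - drOp P (fun _ => 0) x = P x := fun x => by rw [dr_zero]; abel
  refine ⟨mem_closure_of_tendsto (p_lim h) (Eventually.of_forall fun j =>
    ⟨X W e j, by simp only [h0]; exact proj_X h hP j⟩), fun w hw => ?_⟩
  have h1 : w ∈ body W e := closure_minimal (by
    rintro _ ⟨x, rfl⟩; simp only [h0]; exact (hP x).1) isClosed_closedConvexHull hw
  have h2 := height h h1
  have h3 := real_inner_le_norm e w
  rw [h.unit] at h3
  rw [norm_smul, h.unit, Real.norm_of_nonneg (by linarith [qi_one h])]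
  linarith

lemma no_limit (h : Ok W e) {P : E → E} (hP : IsProj (body W e) P) :
    ¬ ∃ l : E, Tendsto (fun n : ℕ => (drOp P fun _ => 0)^[n] (X W e 0) + (n : ℝ) • (qi W • e))
      atTop (𝓝 l) := by
  rintro ⟨l, hl⟩
  have h1 := hl.comp (tendsto_atTop_mono N_ge tendsto_id)
  have h2 : W 1 = 0 := by
    refine h.turn _ (h.perp 1) ⟨⟪W 1, l⟫, ?_⟩
    refine (tendsto_const_nhds.inner h1).congr fun j => ?_
    simp only [Function.comp, orbitN h hP]
    simp only [X, inner_add_right, inner_sub_right, real_inner_smul_right, h.perp]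
    ring
  have h3 := h.gain 0
  rw [zero_add, h2, inner_zero_left] at h3
  norm_num at h3

lemma ray (h : Ok W e) {P : E → E} (hP : IsProj (body W e) P) :
    {y | y = qi W • e + drOp P (fun _ => 0) y} =
      {y | ∃ t : ℝ, 0 ≤ t ∧ y = qi W • e - t • (qi W • e)} := by
  have hq := qi_one h
  ext y
  simp only [Set.mem_ofPred_eq, dr_zero]
  constructor
  · intro hy
    have h1 : P y = qi W • e := by
      have : P y = qi W • e + (y - P y) - y + P y := by rw [← hy]; abel
      rw [this]; abel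
    have h2 : ∀ a ∈ body W e, ⟪y - qi W • e, a - qi W • e⟫ ≤ 0 := by
      refine (norm_eq_iInf_iff_real_inner_le_zero (K := body W e) convex_closedConvexHull
        (v_mem h)).1 ?_
      have : Nonempty (body W e) := ⟨⟨_, v_mem h⟩⟩
      refine le_antisymm (le_ciInf fun a => h1 ▸ (hP y).2 a a.2) ?_
      exact ciInf_le_of_le ⟨0, by rintro _ ⟨a, rfl⟩; exact norm_nonneg _⟩ ⟨_, v_mem h⟩ le_rfl
    set τ : ℝ := ⟪y - qi W • e, e⟫ with hτ
    set u : E := y - qi W • e - τ • e with hu
    have hue : ⟪u, e⟫ = 0 := by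
      rw [hu, inner_sub_left, real_inner_smul_left, ee h, ← hτ]; ring
    have h3 : ∀ j, ⟪u, D W j⟫ + τ * (q W j - qi W) ≤ 0 := fun j => by
      have h4 := h2 _ (p_mem j)
      have h5 : y - qi W • e = u + τ • e := by rw [hu]; abel
      have h6 : p W e j - qi W • e = D W j + (q W j - qi W) • e := by rw [p]; module
      have h7 : ⟪e, D W j⟫ = 0 := by rw [real_inner_comm]; exact D_perp h j
      rw [h5, h6, inner_add_left, inner_add_right, inner_add_right, real_inner_smul_right,
        real_inner_smul_left, real_inner_smul_left, real_inner_smul_right, hue, h7, ee h] at h4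
      linarith
    have h4 : ∀ j, ⟪u, W j⟫ - ⟪u, W (j + 1)⟫ ≤ 32 * |τ| / L j := fun j => by
      have hL := Lr_pos j
      have a1 := h3 j
      rw [D, real_inner_smul_right, inner_sub_right] at a1
      have a2 : -τ * (q W j - qi W) ≤ |τ| * (32 / (L j : ℝ) ^ 2) :=
        mul_le_mul (neg_le_abs τ) (qi_tail h j) (sub_nonneg.2 (qi_le h j)) (abs_nonneg τ)
      have a3 : (L j : ℝ)⁻¹ * (⟪u, W j⟫ - ⟪u, W (j + 1)⟫) ≤ (L j : ℝ)⁻¹ * (32 * |τ| / L j) := by
        have : (L j : ℝ)⁻¹ * (32 * |τ| / L j) = |τ| * (32 / (L j : ℝ) ^ 2) := by field_simp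
        linarith
      exact le_of_mul_le_mul_left a3 (inv_pos.2 hL)
    have h5 : Monotone fun j => ⟪u, W j⟫ - 64 * |τ| / L j := monotone_nat_of_le_succ fun j => by
      have hL := Lr_pos j
      have a1 := h4 j
      have a2 : (2 : ℝ) * L j ≤ L (j + 1) := by exact_mod_cast L_two j
      have a3 : 64 * |τ| / L (j + 1) ≤ 64 * |τ| / (2 * L j) :=
        div_le_div_of_nonneg_left (by positivity) (by positivity) a2
      have a4 : 64 * |τ| / (2 * L j) = 32 * |τ| / L j := by field_simp; ring
      have a5 : 64 * |τ| / L j = 32 * |τ| / L j + 32 * |τ| / L j := by ring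
      linarith
    have h6 : BddAbove (Set.range fun j => ⟪u, W j⟫ - 64 * |τ| / L j) := by
      refine ⟨‖u‖ * 2, ?_⟩
      rintro _ ⟨j, rfl⟩
      have a1 := real_inner_le_norm u (W j)
      have a2 := mul_le_mul_of_nonneg_left (h.bdd j) (norm_nonneg u)
      have a3 : 0 ≤ 64 * |τ| / L j := by positivity
      simp only; linarith
    have h7 := (tendsto_atTop_ciSup h5 h6).add (inv_L.const_mul (64 * |τ|))
    have h8 : u = 0 := h.turn u hue ⟨_, h7.congr fun j => by rw [div_eq_mul_inv]; ring⟩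
    have h9 : τ ≤ 0 := by
      have a1 := h3 0
      rw [h8, inner_zero_left] at a1
      have a2 := q_lt h 0
      have a3 := qi_le h (0 + 1)
      by_contra hc
      push Not at hc
      nlinarith
    refine ⟨-τ / qi W, div_nonneg (by linarith) (by linarith), ?_⟩
    have a4 : y = qi W • e + τ • e := by
      have : y = qi W • e + τ • e + u := by rw [hu]; abel
      rw [this, h8, add_zero]
    have a5 : -τ / qi W * qi W = -τ := div_mul_cancel₀ _ (by linarith)
    rw [smul_smul, a5, neg_smul, sub_neg_eq_add]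
    exact a4
  · rintro ⟨t, ht, rfl⟩
    have h1 := proj_eq hP (y := -(t • qi W • e)) (v_mem h) (fun a ha => by
      have := height h ha
      simp only [inner_neg_left, real_inner_smul_left, real_inner_smul_right, ee h]
      have h2 : 0 ≤ t * qi W := by positivity
      nlinarith)
    rw [neg_add_eq_sub] at h1
    rw [h1]; abel

end Pool.Agent.Lib.MP_ef197a_an.Spiral
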