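import Pool.Agent.Lib.MP_ef197a_an.Spiral2

set_option autoImplicit false

namespace Pool.Agent.Lib.MP_ef197a_an.Spiral

open Filter Topology RealInnerProductSpace

/-- radii -/
noncomputable def rad (j : ℕ) : ℝ := 1 + 1 / ((j : ℝ) + 1)

/-- angles -/
noncomputable def ang (j : ℕ) : ℝ := Real.log ((j : ℝ) + 2)

/-- the slow spiral -/
noncomputable def W0 (j : ℕ) : EuclideanSpace ℝ (Fin 3) :=
  !₂[rad j * Real.cos (ang j), rad j * Real.sin (ang j), 0]

/-- the vertical direction -/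
noncomputable def e0 : EuclideanSpace ℝ (Fin 3) := !₂[0, 0, 1]

lemma inner3 (x y : EuclideanSpace ℝ (Fin 3)) :
    ⟪x, y⟫ = x 0 * y 0 + x 1 * y 1 + x 2 * y 2 := by
  simp [PiLp.inner_apply, Fin.sum_univ_three, mul_comm]

lemma WW (i j : ℕ) : ⟪W0 i, W0 j⟫ = rad i * rad j * Real.cos (ang i - ang j) := by
  rw [inner3, Real.cos_sub]
  simp [W0]
  ring

lemma rad_one (j : ℕ) : 1 ≤ rad j := by
  have : (0 : ℝ) ≤ 1 / ((j : ℝ) + 1) := by positivity
  unfold rad; linarith

lemma rad_two (j : ℕ) : rad j ≤ 2 := by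
  have : 1 / ((j : ℝ) + 1) ≤ 1 := by
    rw [div_le_one (by positivity)]; have : (0 : ℝ) ≤ j := by positivity
    linarith
  unfold rad; linarith

lemma rad_lim : Tendsto rad atTop (𝓝 1) := by
  have := tendsto_one_div_add_atTop_nhds_zero_nat (𝕜 := ℝ).const_add 1
  rw [add_zero] at this
  exact this

lemma ang_step (j : ℕ) : (ang (j + 1) - ang j) ^ 2 ≤ (1 / ((j : ℝ) + 2)) ^ 2 := by
  have h0 : (0 : ℝ) < j + 2 := by positivity
  have h1 : ang (j + 1) - ang j = Real.log (1 + 1 / ((j : ℝ) + 2)) := by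
    unfold ang
    rw [← Real.log_div (by positivity) h0.ne']
    congr 1; push_cast; field_simp; ring
  have h2 : (0 : ℝ) < 1 / ((j : ℝ) + 2) := by positivity
  have h3 := Real.log_le_sub_one_of_pos (show 0 < 1 + 1 / ((j : ℝ) + 2) by positivity)
  have h4 := Real.log_nonneg (show 1 ≤ 1 + 1 / ((j : ℝ) + 2) by linarith)
  rw [h1]
  exact pow_le_pow_left₀ h4 (by linarith) 2

lemma ang_double (j : ℕ) : ang (2 * j + 2) = ang j + Real.log 2 := by
  unfold ang
  rw [← Real.log_mul (by positivity) (by norm_num)]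
  congr 1; push_cast; ring

lemma sin_log : Real.sin (Real.log 2) ≠ 0 := by
  refine (Real.sin_pos_of_pos_of_lt_pi (Real.log_pos (by norm_num)) ?_).ne'
  have := Real.log_le_sub_one_of_pos (show (0 : ℝ) < 2 by norm_num)
  linarith [Real.pi_gt_three]

lemma ok : Ok W0 e0 where
  unit := by
    have : ‖e0‖ ^ 2 = 1 ^ 2 := by rw [← real_inner_self_eq_norm_sq, inner3]; simp [e0]
    exact (pow_left_inj₀ (norm_nonneg _) zero_le_one two_ne_zero).1 this
  perp j := by rw [inner3]; simp [W0, e0]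
  bdd j := by
    have h1 : ‖W0 j‖ ^ 2 = rad j ^ 2 := by
      rw [← real_inner_self_eq_norm_sq, WW, sub_self, Real.cos_zero]; ring
    have h2 := (pow_left_inj₀ (norm_nonneg _) (by linarith [rad_one j]) two_ne_zero).1 h1
    rw [h2]; exact rad_two j
  gain j := by
    rw [inner_sub_right, WW, WW, sub_self, Real.cos_zero]
    have h1 := Real.one_sub_sq_div_two_le_cos (x := ang (j + 1) - ang j)
    have h2 := ang_step j
    have h3 := rad_one (j + 1)
    have h4 := rad_two j
    have h5 := rad_one j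
    have h0 : (0 : ℝ) ≤ j := by positivity
    have h6 : 1 / ((j : ℝ) + 2) ^ 3 + (1 / ((j : ℝ) + 2)) ^ 2 ≤ rad j - rad (j + 1) := by
      have e1 : rad j - rad (j + 1) = 1 / (((j : ℝ) + 1) * (j + 2)) := by
        unfold rad; push_cast; field_simp; ring
      have e2 : 1 / ((j : ℝ) + 2) ^ 3 + (1 / ((j : ℝ) + 2)) ^ 2 = (j + 3) / ((j : ℝ) + 2) ^ 3 := by
        field_simp; ring
      rw [e1, e2, div_le_div_iff₀ (by positivity) (by positivity)]
      nlinarith
    have h7 : rad j - (1 / ((j : ℝ) + 2)) ^ 2 ≤ rad j * Real.cos (ang (j + 1) - ang j) := by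
      nlinarith [sq_nonneg (ang (j + 1) - ang j)]
    have h8 : (0 : ℝ) ≤ 1 / ((j : ℝ) + 2) ^ 3 := by positivity
    have h9 : 1 / ((j : ℝ) + 2) ^ 3 ≤ rad j * Real.cos (ang (j + 1) - ang j) - rad (j + 1) := by
      linarith
    nlinarith
  turn u hu := by
    rintro ⟨c, hc⟩
    have h2 : u 2 = 0 := by rw [inner3] at hu; simpa [e0] using hu
    let f : ℕ → ℝ := fun j => u 0 * Real.cos (ang j) + u 1 * Real.sin (ang j)
    have hf : Tendsto f atTop (𝓝 c) := by
      have := hc.div rad_lim one_ne_zero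
      rw [div_one] at this
      refine this.congr fun j => ?_
      have h3 : rad j ≠ 0 := by linarith [rad_one j]
      simp only [Pi.div_apply, inner3, f]
      simp [W0]
      field_simp
    have hd : Tendsto (fun j : ℕ => 2 * j + 2) atTop atTop :=
      tendsto_atTop_mono (fun j => by simp only [id]; omega) tendsto_id
    have hf1 := hf.comp hd
    have hf2 := hf1.comp hd
    have hs := Real.sin_sq_add_cos_sq (Real.log 2)
    have e1 : c + c = 2 * Real.cos (Real.log 2) * c := by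
      refine tendsto_nhds_unique (hf2.add hf) ((hf1.const_mul _).congr fun j => ?_)
      simp only [Function.comp, f, ang_double, Real.cos_add, Real.sin_add]
      linear_combination (u 0 * Real.cos (ang j) + u 1 * Real.sin (ang j)) * hs
    have e2 : c ^ 2 + c ^ 2 - 2 * Real.cos (Real.log 2) * (c * c)
        = Real.sin (Real.log 2) ^ 2 * (u 0 ^ 2 + u 1 ^ 2) := by
      refine tendsto_nhds_unique (((hf.pow 2).add (hf1.pow 2)).sub
        ((hf.mul hf1).const_mul _)) (tendsto_const_nhds.congr fun j => ?_)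
      have ht := Real.sin_sq_add_cos_sq (ang j)
      simp only [Function.comp, f, ang_double, Real.cos_add, Real.sin_add]
      linear_combination (-(Real.sin (Real.log 2) ^ 2 * (u 0 ^ 2 + u 1 ^ 2))) * ht
        + (u 0 * Real.cos (ang j) + u 1 * Real.sin (ang j)) ^ 2 * hs
    have e3 : Real.sin (Real.log 2) ^ 2 * (u 0 ^ 2 + u 1 ^ 2) = 0 := by
      rw [← e2]; linear_combination c * e1
    have e4 : u 0 ^ 2 + u 1 ^ 2 = 0 :=
      (mul_eq_zero.1 e3).resolve_left (pow_ne_zero 2 sin_log)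
    have e5 : u 0 = 0 := by nlinarith
    have e6 : u 1 = 0 := by nlinarith
    ext i
    fin_cases i
    · exact e5
    · exact e6
    · exact h2

theorem main : ∃ (A : Set (EuclideanSpace ℝ (Fin 3))) (b v x : EuclideanSpace ℝ (Fin 3))
    (PA PB : EuclideanSpace ℝ (Fin 3) → EuclideanSpace ℝ (Fin 3)),
    IsCompact A ∧ Convex ℝ A ∧ (interior A).Nonempty ∧ IsProj A PA ∧ IsProj {b} PB ∧
    IsMinDisplacement (drOp PA PB) v ∧ v ≠ 0 ∧
    (∃ z, {y | y = v + drOp PA PB y} = {y | ∃ t : ℝ, 0 ≤ t ∧ y = z - t • v}) ∧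
    ¬ ∃ l, Tendsto (fun n : ℕ => (drOp PA PB)^[n] x + (n : ℝ) • v) atTop (𝓝 l) := by
  have hc : IsCompact (body W0 e0) :=
    (isCompact_closedBall 0 7).of_isClosed_subset isClosed_closedConvexHull (bounded ok)
  have hP : ∀ x, ∃ a ∈ body W0 e0, ∀ y ∈ body W0 e0, ‖x - a‖ ≤ ‖x - y‖ := fun x =>
    hc.exists_isMinOn ⟨_, p_mem 0⟩ (f := fun a => ‖x - a‖) (by fun_prop)
  choose P h1 h2 using hP
  have h3 : IsProj (body W0 e0) P := fun x => ⟨h1 x, h2 x⟩
  refine ⟨body W0 e0, 0, qi W0 • e0, X W0 e0 0, P, fun _ => 0, hc, convex_closedConvexHull,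
    body_int, h3,
    fun x => ⟨rfl, fun y hy => by rw [Set.mem_singleton_iff.1 hy]⟩, minDisp ok h3, ?_,
    ⟨_, ray ok h3⟩, no_limit ok h3⟩
  have h4 := qi_one ok
  refine smul_ne_zero (by linarith) fun h5 => ?_
  have := ok.unit
  rw [h5, norm_zero] at this
  exact zero_ne_one this

end Pool.Agent.Lib.MP_ef197a_an.Spiral
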